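import Pool.Agent.R196.PP.Pieces

/-! P1a-P1f of project PP (MP_68f671_pr): estimates for abstract 4-neighbour chains. -/

namespace Pool.Agent.R152.PP

open Pool.Agent.R196.PP Filter Topology
open scoped BigOperators

/-! ### Taylor bound -/

lemma taylor2_nonneg (x : ℝ) (hx : 0 ≤ x) :
    ‖Complex.exp (Complex.I * x) - 1 - Complex.I * x‖ ≤ x ^ 2 / 2 := by
  have hd : ∀ y : ℝ, HasDerivAt (fun y : ℝ => Complex.exp (Complex.I * y) - 1 - Complex.I * y)
      (Complex.I * (Complex.exp (Complex.I * y) - 1)) y := by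
    intro y
    have h0 : HasDerivAt (fun y : ℝ => (y : ℂ)) 1 y := by
      simpa using (hasDerivAt_id y).ofReal_comp
    have h1 : HasDerivAt (fun y : ℝ => Complex.I * (y : ℂ)) Complex.I y := by
      simpa using h0.const_mul Complex.I
    have h2 := (h1.cexp.sub_const 1).sub h1
    refine h2.congr_deriv ?_
    ring
  have := image_norm_le_of_norm_deriv_right_le_deriv_boundary (a := 0) (b := x)
    (f := fun y : ℝ => Complex.exp (Complex.I * y) - 1 - Complex.I * y)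
    (f' := fun y : ℝ => Complex.I * (Complex.exp (Complex.I * y) - 1))
    (B := fun y => y ^ 2 / 2) (B' := fun y => y)
    (fun y _ => (hd y).continuousAt.continuousWithinAt) (fun y _ => (hd y).hasDerivWithinAt)
    (by simp) (fun y => by
      have := (hasDerivAt_pow 2 y).div_const 2
      simpa using this) (fun y hy => by
      rw [norm_mul, Complex.norm_I, one_mul]
      have := Real.norm_exp_I_mul_ofReal_sub_one_le (x := y)
      rwa [Real.norm_of_nonneg hy.1] at this)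
  exact this ⟨hx, le_rfl⟩

lemma taylor3_nonneg (x : ℝ) (hx : 0 ≤ x) :
    ‖Complex.exp (Complex.I * x) - 1 - Complex.I * x + x ^ 2 / 2‖ ≤ x ^ 3 / 6 := by
  have hd : ∀ y : ℝ, HasDerivAt
      (fun y : ℝ => Complex.exp (Complex.I * y) - 1 - Complex.I * y + (y : ℂ) ^ 2 / 2)
      (Complex.I * (Complex.exp (Complex.I * y) - 1 - Complex.I * y)) y := by
    intro y
    have h0 : HasDerivAt (fun y : ℝ => (y : ℂ)) 1 y := by
      simpa using (hasDerivAt_id y).ofReal_comp
    have h1 : HasDerivAt (fun y : ℝ => Complex.I * (y : ℂ)) Complex.I y := by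
      simpa using h0.const_mul Complex.I
    have h2 := ((h1.cexp.sub_const 1).sub h1).add ((h0.pow 2).div_const 2)
    refine h2.congr_deriv ?_
    push_cast
    linear_combination (y : ℂ) * Complex.I_mul_I
  have := image_norm_le_of_norm_deriv_right_le_deriv_boundary (a := 0) (b := x)
    (f := fun y : ℝ => Complex.exp (Complex.I * y) - 1 - Complex.I * y + (y : ℂ) ^ 2 / 2)
    (f' := fun y : ℝ => Complex.I * (Complex.exp (Complex.I * y) - 1 - Complex.I * y))
    (B := fun y => y ^ 3 / 6) (B' := fun y => y ^ 2 / 2)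
    (fun y _ => (hd y).continuousAt.continuousWithinAt) (fun y _ => (hd y).hasDerivWithinAt)
    (by simp) (fun y => by
      have := (hasDerivAt_pow 3 y).div_const 6
      refine this.congr_deriv ?_
      push_cast
      ring) (fun y hy => by
      rw [norm_mul, Complex.norm_I, one_mul]
      exact taylor2_nonneg y hy.1)
  exact this ⟨hx, le_rfl⟩

lemma taylor3 (x : ℝ) :
    ‖Complex.exp (Complex.I * x) - 1 - Complex.I * x + x ^ 2 / 2‖ ≤ |x| ^ 3 / 6 := by
  rcases le_or_gt 0 x with h | h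
  · rw [abs_of_nonneg h]; exact taylor3_nonneg x h
  · have h1 := taylor3_nonneg (-x) (by linarith)
    rw [abs_of_neg h]
    have h2 : Complex.exp (Complex.I * x) - 1 - Complex.I * x + x ^ 2 / 2 =
        (starRingEnd ℂ) (Complex.exp (Complex.I * ((-x : ℝ) : ℂ)) - 1 - Complex.I * ((-x : ℝ) : ℂ) +
          ((-x : ℝ) : ℂ) ^ 2 / 2) := by
      simp only [map_sub, map_add, map_mul, map_one, map_div₀, map_pow, map_ofNat,
        ← Complex.exp_conj, Complex.conj_I, Complex.conj_ofReal]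
      push_cast
      ring_nf
    rw [h2, RCLike.norm_conj]
    exact h1

/-! ### averages -/

section
variable {X : Type} (nx : X → Fin 4 → X)

lemma PR_mono {f g : X → ℝ} {x : X} (h : ∀ e, f (nx x e) ≤ g (nx x e)) : PR nx f x ≤ PR nx g x := by
  unfold PR
  exact mul_le_mul_of_nonneg_left (Finset.sum_le_sum fun e _ => h e) (by norm_num)

lemma PR_const (a : ℝ) (x : X) : PR nx (fun _ => a) x = a := by
  unfold PR; simp

lemma PR_add (f g : X → ℝ) (x : X) : PR nx (fun y => f y + g y) x = PR nx f x + PR nx g x := by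
  unfold PR; rw [Finset.sum_add_distrib, mul_add]

lemma PR_sub (f g : X → ℝ) (x : X) : PR nx (fun y => f y - g y) x = PR nx f x - PR nx g x := by
  unfold PR; rw [Finset.sum_sub_distrib, mul_sub]

lemma PR_mul (a : ℝ) (f : X → ℝ) (x : X) : PR nx (fun y => a * f y) x = a * PR nx f x := by
  unfold PR; rw [← Finset.mul_sum]; ring

lemma abs_PR_le {f g : X → ℝ} {x : X} (h : ∀ e, |f (nx x e)| ≤ g (nx x e)) :
    |PR nx f x| ≤ PR nx g x := by
  unfold PR
  rw [abs_mul, abs_of_pos (by norm_num : (0 : ℝ) < 1 / 4)]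
  refine mul_le_mul_of_nonneg_left ?_ (by norm_num)
  exact (Finset.abs_sum_le_sum_abs _ _).trans (Finset.sum_le_sum fun e _ => h e)

/-- complex twisted average -/
noncomputable def TT (c : X → Fin 4 → ℝ) (θ : ℝ) (f : X → ℂ) (x : X) : ℂ :=
  (1 / 4) * ∑ e, Complex.exp (Complex.I * ((θ * c x e : ℝ) : ℂ)) * f (nx x e)

lemma norm_quarter_sum_le (F : Fin 4 → ℂ) (G : Fin 4 → ℝ) (h : ∀ e, ‖F e‖ ≤ G e) :
    ‖(1 / 4 : ℂ) * ∑ e, F e‖ ≤ (1 / 4) * ∑ e, G e := by
  rw [norm_mul]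
  have : ‖(1 / 4 : ℂ)‖ = 1 / 4 := by norm_num
  rw [this]
  exact mul_le_mul_of_nonneg_left ((norm_sum_le _ _).trans (Finset.sum_le_sum fun e _ => h e))
    (by norm_num)

lemma norm_exp_real (y : ℝ) : ‖Complex.exp (Complex.I * (y : ℂ))‖ = 1 := by
  rw [mul_comm]; exact Complex.norm_exp_ofReal_mul_I y

lemma norm_TT_le (c : X → Fin 4 → ℝ) (θ : ℝ) {f : X → ℂ} {g : X → ℝ} {x : X}
    (h : ∀ e, ‖f (nx x e)‖ ≤ g (nx x e)) : ‖TT nx c θ f x‖ ≤ PR nx g x := by
  unfold TT PR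
  refine norm_quarter_sum_le _ _ fun e => ?_
  rw [norm_mul, norm_exp_real, one_mul]
  exact h e

lemma TT_add (c : X → Fin 4 → ℝ) (θ : ℝ) (f g : X → ℂ) (x : X) :
    TT nx c θ (fun y => f y + g y) x = TT nx c θ f x + TT nx c θ g x := by
  unfold TT
  rw [← mul_add, ← Finset.sum_add_distrib]
  congr 1
  exact Finset.sum_congr rfl fun e _ => by ring

lemma TT_sub (c : X → Fin 4 → ℝ) (θ : ℝ) (f g : X → ℂ) (x : X) :
    TT nx c θ (fun y => f y - g y) x = TT nx c θ f x - TT nx c θ g x := by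
  unfold TT
  rw [← mul_sub, ← Finset.sum_sub_distrib]
  congr 1
  exact Finset.sum_congr rfl fun e _ => by ring

lemma TT_mul (c : X → Fin 4 → ℝ) (θ : ℝ) (a : ℂ) (f : X → ℂ) (x : X) :
    TT nx c θ (fun y => a * f y) x = a * TT nx c θ f x := by
  unfold TT
  simp only [Finset.mul_sum]
  exact Finset.sum_congr rfl fun e _ => by ring

/-- `T^n h` -/
noncomputable def Th (c : X → Fin 4 → ℝ) (θ : ℝ) (h : X → ℂ) : ℕ → X → ℂ
  | 0, x => h x
  | n + 1, x => TT nx c θ (Th c θ h n) x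

/-- `Σ_{j<n} w^(n-1-j) (T^j h - T^(j+1) h)` -/
noncomputable def BB (c : X → Fin 4 → ℝ) (θ : ℝ) (h : X → ℂ) (w : ℂ) : ℕ → X → ℂ
  | 0, _ => 0
  | n + 1, x => w * BB c θ h w n x + (Th nx c θ h n x - Th nx c θ h (n + 1) x)

lemma BB_succ (c : X → Fin 4 → ℝ) (θ : ℝ) (h : X → ℂ) (w : ℂ) (n : ℕ) (x : X) :
    BB nx c θ h w (n + 1) x = w ^ n * (h x - TT nx c θ h x) + TT nx c θ (BB nx c θ h w n) x := by
  induction n with
  | zero =>
    have h0 : TT nx c θ (BB nx c θ h w 0) x = 0 := by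
      unfold TT
      simp [BB]
    rw [h0]
    show w * BB nx c θ h w 0 x + (Th nx c θ h 0 x - Th nx c θ h 1 x) = _
    have h1 : BB nx c θ h w 0 x = 0 := rfl
    have h2 : Th nx c θ h 0 x = h x := rfl
    have h3 : Th nx c θ h 1 x = TT nx c θ h x := rfl
    rw [h1, h2, h3]
    ring
  | succ n ih =>
    have h1 : TT nx c θ (BB nx c θ h w (n + 1)) x =
        w * TT nx c θ (BB nx c θ h w n) x + (Th nx c θ h (n + 1) x - Th nx c θ h (n + 2) x) := by
      have h2 : (BB nx c θ h w (n + 1)) = fun y => w * BB nx c θ h w n y +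
          (Th nx c θ h n y - Th nx c θ h (n + 1) y) := rfl
      rw [h2, TT_add, TT_mul, TT_sub]
      rfl
    rw [h1]
    show w * BB nx c θ h w (n + 1) x + (Th nx c θ h (n + 1) x - Th nx c θ h (n + 2) x) = _
    rw [ih, pow_succ]
    ring

lemma norm_Th_le (c : X → Fin 4 → ℝ) (θ : ℝ) (h : X → ℂ) (H : ℝ) (S : Set X)
    (hS : ∀ x ∈ S, ∀ e, nx x e ∈ S) (hH : ∀ x ∈ S, ‖h x‖ ≤ H) (n : ℕ) :
    ∀ x ∈ S, ‖Th nx c θ h n x‖ ≤ H := by
  induction n with
  | zero => exact hH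
  | succ n ih =>
    intro x hx
    have := norm_TT_le nx c θ (f := Th nx c θ h n) (g := fun _ => H) (x := x)
      (fun e => ih _ (hS x hx e))
    rwa [PR_const] at this

lemma norm_BB_le (c : X → Fin 4 → ℝ) (θ : ℝ) (h : X → ℂ) (H : ℝ) (S : Set X)
    (hS : ∀ x ∈ S, ∀ e, nx x e ∈ S) (hH : ∀ x ∈ S, ‖h x‖ ≤ H) (w : ℝ) (hw0 : 0 ≤ w) (hw1 : w ≤ 1)
    (n : ℕ) : ∀ x ∈ S, ‖BB nx c θ h (w : ℂ) n x + Th nx c θ h n x‖ ≤ H := by
  induction n with
  | zero =>
    intro x hx
    have : BB nx c θ h (w : ℂ) 0 x + Th nx c θ h 0 x = h x := by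
      show 0 + h x = h x
      rw [zero_add]
    rw [this]; exact hH x hx
  | succ n ih =>
    intro x hx
    have h1 : BB nx c θ h (w : ℂ) (n + 1) x + Th nx c θ h (n + 1) x =
        (w : ℂ) * (BB nx c θ h (w : ℂ) n x + Th nx c θ h n x) + ((1 - w : ℝ) : ℂ) * Th nx c θ h n x := by
      show ((w : ℂ) * BB nx c θ h w n x + (Th nx c θ h n x - Th nx c θ h (n + 1) x)) +
        Th nx c θ h (n + 1) x = _
      push_cast
      ring
    rw [h1]
    refine (norm_add_le _ _).trans ?_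
    rw [norm_mul, norm_mul, Complex.norm_real, Complex.norm_real, Real.norm_of_nonneg hw0,
      Real.norm_of_nonneg (by linarith)]
    have h2 := ih x hx
    have h3 := norm_Th_le nx c θ h H S hS hH n x hx
    nlinarith

end

section
variable {X : Type} (nx : X → Fin 4 → X) {B : Set X} {x : X}

lemma ExitP_zero_mem (h : x ∈ B) : ExitP nx B 0 x = 0 := by simp [ExitP, h]
lemma ExitP_zero_not (h : x ∉ B) : ExitP nx B 0 x = 1 := by simp [ExitP, h]
lemma ExitP_succ_mem (n : ℕ) (h : x ∈ B) : ExitP nx B (n + 1) x = PR nx (ExitP nx B n) x := by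
  simp [ExitP, h]
lemma ExitP_succ_not (n : ℕ) (h : x ∉ B) : ExitP nx B (n + 1) x = 1 := by simp [ExitP, h]

end

/-! ### P1a -/

lemma one_step {X : Type} (nx : X → Fin 4 → X) (c : X → Fin 4 → ℝ) (x : X)
    (hc : ∑ e, c x e = 0) (G : ℝ) (hG : ∀ e, |c x e| ≤ G) (σ2 : ℝ) (hσ : 0 ≤ σ2)
    (h : X → ℝ) (H : ℝ) (hH : ∀ e, |h (nx x e)| ≤ H) (D : ℝ)
    (hD : |Vf c x - σ2 - (h x - PR nx h x)| ≤ D) (θ : ℝ) (hθ : 0 ≤ θ) :
    ‖TT nx c θ (fun _ => 1) x - ((Real.exp (-(θ ^ 2 * σ2 / 2)) : ℝ) : ℂ) +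
        (θ ^ 2 / 2 : ℝ) * ((h x : ℂ) - TT nx c θ (fun y => (h y : ℂ)) x)‖ ≤
      θ ^ 2 / 2 * D + θ ^ 3 / 4 * H * (1 + Vf c x) + θ ^ 3 * G / 6 * Vf c x
        + θ ^ 4 * σ2 ^ 2 / 8 := by
  set w : ℝ := Real.exp (-(θ ^ 2 * σ2 / 2)) with hw
  have hG0 : 0 ≤ G := (abs_nonneg _).trans (hG 0)
  have hH0 : 0 ≤ H := (abs_nonneg _).trans (hH 0)
  -- the three error terms
  set R1 : ℂ := (1 / 4) * ∑ e, (Complex.exp (Complex.I * ((θ * c x e : ℝ) : ℂ)) - 1 -
    Complex.I * ((θ * c x e : ℝ) : ℂ) + ((θ * c x e : ℝ) : ℂ) ^ 2 / 2) with hR1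
  set R2 : ℂ := (1 / 4) * ∑ e, (1 - Complex.exp (Complex.I * ((θ * c x e : ℝ) : ℂ))) *
    (h (nx x e) : ℂ) with hR2
  have e1 : TT nx c θ (fun _ => 1) x = 1 - ((θ ^ 2 / 2 * Vf c x : ℝ) : ℂ) + R1 := by
    have hc' : ∑ e, ((c x e : ℝ) : ℂ) = 0 := by
      rw [← Complex.ofReal_sum, hc, Complex.ofReal_zero]
    have h1 : R1 = (1 / 4) * ∑ e, Complex.exp (Complex.I * ((θ * c x e : ℝ) : ℂ)) - 1 +
        (θ ^ 2 / 2 : ℂ) * ((1 / 4) * ∑ e, ((c x e : ℝ) : ℂ) ^ 2) := by
      rw [hR1, Finset.sum_add_distrib, Finset.sum_sub_distrib, Finset.sum_sub_distrib]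
      have h2 : ∑ e, Complex.I * ((θ * c x e : ℝ) : ℂ) = 0 := by
        have : ∑ e, Complex.I * ((θ * c x e : ℝ) : ℂ) = Complex.I * θ * ∑ e, ((c x e : ℝ) : ℂ) := by
          rw [Finset.mul_sum]
          exact Finset.sum_congr rfl fun e _ => by push_cast; ring
        rw [this, hc', mul_zero]
      have h3 : ∑ e, ((θ * c x e : ℝ) : ℂ) ^ 2 / 2 = (θ ^ 2 / 2 : ℂ) * ∑ e, ((c x e : ℝ) : ℂ) ^ 2 := by
        rw [Finset.mul_sum]
        exact Finset.sum_congr rfl fun e _ => by push_cast; ring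
      rw [h2, h3]
      simp
      ring
    rw [h1]
    unfold TT Vf
    push_cast
    simp only [mul_one]
    ring
  have e2 : TT nx c θ (fun y => (h y : ℂ)) x = ((PR nx h x : ℝ) : ℂ) - R2 := by
    rw [hR2]
    unfold TT PR
    push_cast
    rw [← mul_sub, ← Finset.sum_sub_distrib]
    congr 1
    exact Finset.sum_congr rfl fun e _ => by ring
  have e3 : TT nx c θ (fun _ => 1) x - (w : ℂ) +
        (θ ^ 2 / 2 : ℝ) * ((h x : ℂ) - TT nx c θ (fun y => (h y : ℂ)) x) =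
      ((-(θ ^ 2 / 2 * (Vf c x - σ2 - (h x - PR nx h x))) : ℝ) : ℂ) + ((θ ^ 2 / 2 : ℝ) : ℂ) * R2 + R1 +
        ((1 - θ ^ 2 * σ2 / 2 - w : ℝ) : ℂ) := by
    rw [e1, e2]
    push_cast
    ring
  rw [e3]
  have b1 : ‖((-(θ ^ 2 / 2 * (Vf c x - σ2 - (h x - PR nx h x))) : ℝ) : ℂ)‖ ≤ θ ^ 2 / 2 * D := by
    rw [Complex.norm_real, Real.norm_eq_abs, abs_neg, abs_mul, abs_of_nonneg (by positivity)]
    exact mul_le_mul_of_nonneg_left hD (by positivity)
  have b2 : ‖((θ ^ 2 / 2 : ℝ) : ℂ) * R2‖ ≤ θ ^ 3 / 4 * H * (1 + Vf c x) := by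
    rw [norm_mul, Complex.norm_real, Real.norm_of_nonneg (by positivity)]
    have h4 : ‖R2‖ ≤ (1 / 4) * ∑ e, θ * H * ((1 + (c x e) ^ 2) / 2) := by
      refine norm_quarter_sum_le _ _ fun e => ?_
      rw [norm_mul, norm_sub_rev, Complex.norm_real, Real.norm_eq_abs]
      have h5 := Real.norm_exp_I_mul_ofReal_sub_one_le (x := θ * c x e)
      rw [Real.norm_eq_abs, abs_mul, abs_of_nonneg hθ] at h5
      have h6 : |c x e| ≤ (1 + (c x e) ^ 2) / 2 := by
        have := sq_nonneg (|c x e| - 1)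
        rw [← sq_abs (c x e)]
        nlinarith
      calc _ ≤ (θ * |c x e|) * H := mul_le_mul h5 (hH e) (abs_nonneg _) (by positivity)
        _ = θ * H * |c x e| := by ring
        _ ≤ _ := mul_le_mul_of_nonneg_left h6 (by positivity)
    have h7 : (1 / 4 : ℝ) * ∑ e, θ * H * ((1 + (c x e) ^ 2) / 2) = θ * H * ((1 + Vf c x) / 2) := by
      unfold Vf
      rw [← Finset.mul_sum, ← Finset.sum_div, Finset.sum_add_distrib]
      simp
      ring
    rw [h7] at h4
    calc θ ^ 2 / 2 * ‖R2‖ ≤ θ ^ 2 / 2 * (θ * H * ((1 + Vf c x) / 2)) :=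
          mul_le_mul_of_nonneg_left h4 (by positivity)
      _ = _ := by ring
  have b3 : ‖R1‖ ≤ θ ^ 3 * G / 6 * Vf c x := by
    have h4 : ‖R1‖ ≤ (1 / 4) * ∑ e, θ ^ 3 * G / 6 * (c x e) ^ 2 := by
      refine norm_quarter_sum_le _ _ fun e => ?_
      refine (taylor3 _).trans ?_
      rw [abs_mul, abs_of_nonneg hθ]
      have h5 : |c x e| ^ 3 ≤ G * (c x e) ^ 2 := by
        rw [← sq_abs (c x e)]
        calc |c x e| ^ 3 = |c x e| * |c x e| ^ 2 := by ring
          _ ≤ G * |c x e| ^ 2 := mul_le_mul_of_nonneg_right (hG e) (by positivity)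
      calc (θ * |c x e|) ^ 3 / 6 = θ ^ 3 / 6 * |c x e| ^ 3 := by ring
        _ ≤ θ ^ 3 / 6 * (G * (c x e) ^ 2) := mul_le_mul_of_nonneg_left h5 (by positivity)
        _ = _ := by ring
    refine h4.trans (le_of_eq ?_)
    unfold Vf
    rw [← Finset.mul_sum]
    ring
  have b4 : ‖((1 - θ ^ 2 * σ2 / 2 - w : ℝ) : ℂ)‖ ≤ θ ^ 4 * σ2 ^ 2 / 8 := by
    rw [Complex.norm_real, Real.norm_eq_abs]
    set y : ℝ := θ ^ 2 * σ2 / 2 with hy
    have hy0 : 0 ≤ y := by positivity
    have h5 : 1 - y ≤ w := by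
      rw [hw]
      have := Real.add_one_le_exp (-y)
      linarith
    have h6 : w ≤ 1 - y + y ^ 2 / 2 := by
      -- exp (-y) ≤ 1 - y + y²/2
      have h7 : ∀ z : ℝ, 0 ≤ z → Real.exp (-z) ≤ 1 - z + z ^ 2 / 2 := by
        intro z hz
        have h8 : MonotoneOn (fun z : ℝ => 1 - z + z ^ 2 / 2 - Real.exp (-z)) (Set.Ici 0) := by
          apply monotoneOn_of_deriv_nonneg (convex_Ici 0)
          · fun_prop
          · fun_prop
          · intro t ht
            have h9 : HasDerivAt (fun z : ℝ => 1 - z + z ^ 2 / 2 - Real.exp (-z))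
                (0 - 1 + (2 * t) / 2 - Real.exp (-t) * (-1)) t := by
              have := ((((hasDerivAt_const t (1 : ℝ)).sub (hasDerivAt_id t)).add
                ((hasDerivAt_pow 2 t).div_const 2)).sub ((hasDerivAt_neg t).exp))
              refine this.congr_deriv ?_
              push_cast
              ring
            rw [h9.deriv]
            have := Real.add_one_le_exp (-t)
            linarith
        have h10 := h8 (Set.self_mem_Ici) (show z ∈ Set.Ici 0 from hz) hz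
        simp at h10
        linarith
      exact h7 y hy0
    rw [abs_le]
    have h11 : y ^ 2 / 2 = θ ^ 4 * σ2 ^ 2 / 8 := by rw [hy]; ring
    constructor <;> nlinarith [sq_nonneg y]
  calc _ ≤ ‖((-(θ ^ 2 / 2 * (Vf c x - σ2 - (h x - PR nx h x))) : ℝ) : ℂ)‖ +
        ‖((θ ^ 2 / 2 : ℝ) : ℂ) * R2‖ + ‖R1‖ + ‖((1 - θ ^ 2 * σ2 / 2 - w : ℝ) : ℂ)‖ := by
        refine (norm_add_le _ _).trans (add_le_add ?_ le_rfl)
        refine (norm_add_le _ _).trans (add_le_add ?_ le_rfl)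
        exact norm_add_le _ _
    _ ≤ _ := by linarith

theorem P1a_holds : P1a := by
  intro X nx S hS c hc G hG σ2 hσ h H hH Δ hΔ n θ hθ x hx
  set w : ℝ := Real.exp (-(θ ^ 2 * σ2 / 2)) with hw
  have hw0 : 0 ≤ w := (Real.exp_pos _).le
  have hw1 : w ≤ 1 := by
    rw [hw]; exact Real.exp_le_one_iff.2 (by have : 0 ≤ θ ^ 2 * σ2 / 2 := by positivity
                                             linarith)
  set hc' : X → ℂ := fun y => (h y : ℂ) with hhc
  -- main induction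
  have key : ∀ n : ℕ, ∀ x ∈ S,
      ‖CF nx c θ n x - (w : ℂ) ^ n + (θ ^ 2 / 2 : ℝ) * BB nx c θ hc' (w : ℂ) n x‖ ≤
        θ ^ 2 / 2 * SR nx Δ n x + θ ^ 3 / 4 * H * (n + SR nx (Vf c) n x)
        + θ ^ 3 * G / 6 * SR nx (Vf c) n x + n * (θ ^ 4 * σ2 ^ 2 / 8) := by
    intro n
    induction n with
    | zero =>
      intro x hx
      simp [CF, BB, SR]
    | succ n ih =>
      intro x hx
      have e1 : CF nx c θ (n + 1) x - (w : ℂ) ^ (n + 1) +
          (θ ^ 2 / 2 : ℝ) * BB nx c θ hc' (w : ℂ) (n + 1) x =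
          TT nx c θ (fun y => CF nx c θ n y - (w : ℂ) ^ n * 1 +
            (θ ^ 2 / 2 : ℝ) * BB nx c θ hc' (w : ℂ) n y) x +
          (w : ℂ) ^ n * (TT nx c θ (fun _ => 1) x - (w : ℂ) +
            (θ ^ 2 / 2 : ℝ) * ((h x : ℂ) - TT nx c θ (fun y => (h y : ℂ)) x)) := by
        rw [TT_add, TT_sub, TT_mul, TT_mul, BB_succ]
        have : CF nx c θ (n + 1) x = TT nx c θ (CF nx c θ n) x := rfl
        rw [this, pow_succ]
        ring
      rw [e1]
      have b1 : ‖TT nx c θ (fun y => CF nx c θ n y - (w : ℂ) ^ n * 1 +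
            (θ ^ 2 / 2 : ℝ) * BB nx c θ hc' (w : ℂ) n y) x‖ ≤
          PR nx (fun y => θ ^ 2 / 2 * SR nx Δ n y + θ ^ 3 / 4 * H * (n + SR nx (Vf c) n y)
            + θ ^ 3 * G / 6 * SR nx (Vf c) n y + n * (θ ^ 4 * σ2 ^ 2 / 8)) x := by
        apply norm_TT_le
        intro e
        have := ih (nx x e) (hS x hx e)
        simpa using this
      have b2 : ‖(w : ℂ) ^ n * (TT nx c θ (fun _ => 1) x - (w : ℂ) +
            (θ ^ 2 / 2 : ℝ) * ((h x : ℂ) - TT nx c θ (fun y => (h y : ℂ)) x))‖ ≤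
          θ ^ 2 / 2 * Δ x + θ ^ 3 / 4 * H * (1 + Vf c x) + θ ^ 3 * G / 6 * Vf c x
            + θ ^ 4 * σ2 ^ 2 / 8 := by
        rw [norm_mul, norm_pow, Complex.norm_real, Real.norm_of_nonneg hw0]
        have := one_step nx c x (hc x hx) G (hG x hx) σ2 hσ h H (fun e => hH _ (hS x hx e)) (Δ x)
          (hΔ x hx) θ hθ
        refine le_trans (mul_le_of_le_one_left (norm_nonneg _) (pow_le_one₀ hw0 hw1)) this
      refine (norm_add_le _ _).trans ((add_le_add b1 b2).trans (le_of_eq ?_))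
      have e2 : PR nx (fun y => θ ^ 2 / 2 * SR nx Δ n y + θ ^ 3 / 4 * H * (n + SR nx (Vf c) n y)
            + θ ^ 3 * G / 6 * SR nx (Vf c) n y + n * (θ ^ 4 * σ2 ^ 2 / 8)) x =
          θ ^ 2 / 2 * PR nx (SR nx Δ n) x + θ ^ 3 / 4 * H * (n + PR nx (SR nx (Vf c) n) x)
            + θ ^ 3 * G / 6 * PR nx (SR nx (Vf c) n) x + n * (θ ^ 4 * σ2 ^ 2 / 8) := by
        rw [PR_add, PR_add, PR_add, PR_mul, PR_mul, PR_mul, PR_add, PR_const, PR_const]
      rw [e2]
      have e3 : ∀ f : X → ℝ, SR nx f (n + 1) x = f x + PR nx (SR nx f n) x := fun f => rfl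
      rw [e3, e3]
      push_cast
      ring
  have h1 := key n x hx
  have h2 := norm_BB_le nx c θ hc' H S hS (fun y hy => by
    rw [hhc]; simpa using hH y hy) w hw0 hw1 n x hx
  have h3 := norm_Th_le nx c θ hc' H S hS (fun y hy => by
    rw [hhc]; simpa using hH y hy) n x hx
  have hH0 : 0 ≤ H := (abs_nonneg _).trans (hH x hx)
  have h4 : ‖BB nx c θ hc' (w : ℂ) n x‖ ≤ 2 * H := by
    have : BB nx c θ hc' (w : ℂ) n x = (BB nx c θ hc' (w : ℂ) n x + Th nx c θ hc' n x) -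
      Th nx c θ hc' n x := by ring
    rw [this]
    refine (norm_sub_le _ _).trans ?_
    linarith
  have h5 : CF nx c θ n x - (w : ℂ) ^ n = (CF nx c θ n x - (w : ℂ) ^ n +
      (θ ^ 2 / 2 : ℝ) * BB nx c θ hc' (w : ℂ) n x) - (θ ^ 2 / 2 : ℝ) * BB nx c θ hc' (w : ℂ) n x := by
    ring
  rw [h5]
  refine (norm_sub_le _ _).trans ?_
  have h6 : ‖((θ ^ 2 / 2 : ℝ) : ℂ) * BB nx c θ hc' (w : ℂ) n x‖ ≤ 3 * θ ^ 2 / 2 * H := by
    rw [norm_mul, Complex.norm_real, Real.norm_of_nonneg (by positivity)]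
    calc θ ^ 2 / 2 * ‖BB nx c θ hc' (w : ℂ) n x‖ ≤ θ ^ 2 / 2 * (2 * H) :=
          mul_le_mul_of_nonneg_left h4 (by positivity)
      _ ≤ _ := by nlinarith [mul_nonneg (sq_nonneg θ) hH0]
  linarith

theorem P1b_holds : P1b := by
  intro X nx S hS V σ2 h H hH Δ hΔ n x hx
  -- the iterates of `h`
  let Pn : ℕ → X → ℝ := fun n => Nat.rec h (fun _ f => PR nx f) n
  have Pn0 : Pn 0 = h := rfl
  have PnS : ∀ n, Pn (n + 1) = PR nx (Pn n) := fun n => rfl
  have hPn : ∀ n, ∀ x ∈ S, |Pn n x| ≤ H := by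
    intro n
    induction n with
    | zero => exact hH
    | succ n ih =>
      intro x hx
      rw [PnS]
      have := abs_PR_le nx (f := Pn n) (g := fun _ => H) (x := x) (fun e => ih _ (hS x hx e))
      rwa [PR_const] at this
  have key : ∀ n : ℕ, ∀ x ∈ S, |SR nx V n x - n * σ2 - (h x - Pn n x)| ≤ SR nx Δ n x := by
    intro n
    induction n with
    | zero => intro x hx; simp [SR, Pn0]
    | succ n ih =>
      intro x hx
      have e1 : SR nx V (n + 1) x - ((n + 1 : ℕ) : ℝ) * σ2 - (h x - Pn (n + 1) x) =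
          (V x - σ2 - (h x - PR nx h x)) +
            PR nx (fun y => SR nx V n y - n * σ2 - (h y - Pn n y)) x := by
        rw [PR_sub, PR_sub, PR_sub, PR_const, PnS]
        have : SR nx V (n + 1) x = V x + PR nx (SR nx V n) x := rfl
        rw [this]
        push_cast
        ring
      rw [e1]
      refine (abs_add_le _ _).trans ?_
      have : SR nx Δ (n + 1) x = Δ x + PR nx (SR nx Δ n) x := rfl
      rw [this]
      refine add_le_add (hΔ x hx) ?_
      exact abs_PR_le nx (fun e => ih _ (hS x hx e))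
  have h1 := key n x hx
  have h2 := hPn n x hx
  have h3 := hH x hx
  rw [abs_le] at h1 h2 h3 ⊢
  constructor <;> linarith [h1.1, h1.2, h2.1, h2.2, h3.1, h3.2]

theorem P1c_holds : P1c := by
  classical
  intro X nx S hS φ ψ hφ hψ x0 hx0 R hR n
  set B : Set X := {x | |φ x - φ x0| ≤ R ∧ |ψ x - ψ x0| ≤ R} with hB
  have hharm : ∀ (φ : X → ℝ), (∀ x ∈ S, ∑ e, grad nx φ x e = 0) → ∀ x ∈ S,
      PR nx (fun y => (φ y - φ x0) ^ 2) x = (φ x - φ x0) ^ 2 + Vf (grad nx φ) x := by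
    intro φ hφ x hx
    have h1 := hφ x hx
    unfold PR Vf
    unfold grad at h1 ⊢
    simp only [Fin.sum_univ_four] at h1 ⊢
    have : φ (nx x 3) = 4 * φ x - φ (nx x 0) - φ (nx x 1) - φ (nx x 2) := by linarith
    rw [this]
    ring
  have hVf : ∀ (c : X → Fin 4 → ℝ) x, 0 ≤ Vf c x := fun c x =>
    mul_nonneg (by norm_num) (Finset.sum_nonneg fun e _ => sq_nonneg _)
  have hSR : ∀ (c : X → Fin 4 → ℝ) (n : ℕ) x, 0 ≤ SR nx (Vf c) n x := by
    intro c n
    induction n with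
    | zero => intro x; exact le_rfl
    | succ n ih =>
      intro x
      have : SR nx (Vf c) (n + 1) x = Vf c x + PR nx (SR nx (Vf c) n) x := rfl
      rw [this]
      refine add_nonneg (hVf c x) ?_
      exact mul_nonneg (by norm_num) (Finset.sum_nonneg fun e _ => ih _)
  have hout : ∀ x, x ∉ B → R ^ 2 ≤ (φ x - φ x0) ^ 2 + (ψ x - ψ x0) ^ 2 := by
    intro x hx
    by_contra hcon
    push Not at hcon
    apply hx
    constructor
    · apply abs_le_of_sq_le_sq _ hR.le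
      nlinarith [sq_nonneg (ψ x - ψ x0)]
    · apply abs_le_of_sq_le_sq _ hR.le
      nlinarith [sq_nonneg (φ x - φ x0)]
  have key : ∀ n : ℕ, ∀ x ∈ S, R ^ 2 * ExitP nx B n x ≤ (φ x - φ x0) ^ 2 + (ψ x - ψ x0) ^ 2 +
      SR nx (Vf (grad nx φ)) n x + SR nx (Vf (grad nx ψ)) n x := by
    intro n
    induction n with
    | zero =>
      intro x hx
      have e : ∀ f : X → ℝ, SR nx f 0 x = 0 := fun f => rfl
      rw [e, e]
      by_cases h : x ∈ B
      · rw [ExitP_zero_mem nx h, mul_zero]; positivity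
      · rw [ExitP_zero_not nx h]
        have := hout x h
        linarith
    | succ n ih =>
      intro x hx
      by_cases h : x ∈ B
      · rw [ExitP_succ_mem nx n h]
        have h1 : R ^ 2 * PR nx (ExitP nx B n) x ≤ PR nx (fun y => (φ y - φ x0) ^ 2 +
            (ψ y - ψ x0) ^ 2 + SR nx (Vf (grad nx φ)) n y + SR nx (Vf (grad nx ψ)) n y) x := by
          rw [← PR_mul]
          exact PR_mono nx fun e => ih _ (hS x hx e)
        refine h1.trans (le_of_eq ?_)
        rw [PR_add, PR_add, PR_add, hharm φ hφ x hx, hharm ψ hψ x hx]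
        have e3 : ∀ f : X → ℝ, SR nx f (n + 1) x = f x + PR nx (SR nx f n) x := fun f => rfl
        rw [e3, e3]
        ring
      · rw [ExitP_succ_not nx n h]
        have h1 := hout x h
        have h2 := hSR (grad nx φ) (n + 1) x
        have h3 := hSR (grad nx ψ) (n + 1) x
        linarith
  have h1 := key n x0 hx0
  rw [le_div_iff₀ (by positivity)]
  simp only [sub_self] at h1
  linarith

lemma norm_EV_le {X : Type} (nx : X → Fin 4 → X) (S : Set X) (hS : ∀ x ∈ S, ∀ e, nx x e ∈ S)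
    (F : X → ℂ) (C : ℝ) (hF : ∀ x ∈ S, ‖F x‖ ≤ C) (n : ℕ) : ∀ x ∈ S, ‖EV nx F n x‖ ≤ C := by
  induction n with
  | zero => exact hF
  | succ n ih =>
    intro x hx
    have : EV nx F (n + 1) x = (1 / 4) * ∑ e, EV nx F n (nx x e) := rfl
    rw [this]
    refine (norm_quarter_sum_le _ (fun _ => C) fun e => ih _ (hS x hx e)).trans (le_of_eq ?_)
    simp

theorem P1d_holds : P1d := by
  classical
  intro X nx nx' B S hS hB F C hF n
  induction n with
  | zero =>
    intro x hx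
    have e1 : EV nx F 0 x = F x := rfl
    have e2 : EV nx' F 0 x = F x := rfl
    have hC : 0 ≤ C := (norm_nonneg _).trans (hF x)
    rw [e1, e2, sub_self, norm_zero]
    by_cases h : x ∈ B
    · rw [ExitP_zero_mem nx h]; simp
    · rw [ExitP_zero_not nx h]; linarith
  | succ n ih =>
    intro x hx
    by_cases h : x ∈ B
    · rw [ExitP_succ_mem nx n h]
      have e1 : EV nx F (n + 1) x = (1 / 4) * ∑ e, EV nx F n (nx x e) := rfl
      have e2 : EV nx' F (n + 1) x = (1 / 4) * ∑ e, EV nx' F n (nx x e) := by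
        have : EV nx' F (n + 1) x = (1 / 4) * ∑ e, EV nx' F n (nx' x e) := rfl
        rw [this]
        congr 1
        exact Finset.sum_congr rfl fun e _ => by rw [hB x hx h e]
      rw [e1, e2, ← mul_sub, ← Finset.sum_sub_distrib]
      refine (norm_quarter_sum_le _ _ fun e => ih _ (hS x hx e)).trans (le_of_eq ?_)
      unfold PR
      rw [← Finset.mul_sum]
      ring
    · rw [ExitP_succ_not nx n h]
      have h1 := norm_EV_le nx Set.univ (fun _ _ _ => trivial) F C (fun x _ => hF x) (n + 1) x trivial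
      have h2 := norm_EV_le nx' Set.univ (fun _ _ _ => trivial) F C (fun x _ => hF x) (n + 1) x trivial
      refine (norm_sub_le _ _).trans ?_
      linarith

theorem P1e_holds : P1e := by
  intro X nx φ θ n
  induction n with
  | zero =>
    intro x
    show Complex.exp (Complex.I * ((θ * φ x : ℝ) : ℂ)) = _ * 1
    rw [mul_one]
  | succ n ih =>
    intro x
    have e1 : ∀ F : X → ℂ, EV nx F (n + 1) x = (1 / 4) * ∑ e, EV nx F n (nx x e) := fun F => rfl
    have e2 : CF nx (grad nx φ) θ (n + 1) x = (1 / 4) * ∑ e, Complex.exp (Complex.I *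
      ((θ * grad nx φ x e : ℝ) : ℂ)) * CF nx (grad nx φ) θ n (nx x e) := rfl
    rw [e1, e2]
    simp only [Finset.mul_sum]
    refine Finset.sum_congr rfl fun e _ => ?_
    rw [ih]
    have e3 : Complex.exp (Complex.I * ((θ * φ (nx x e) : ℝ) : ℂ)) =
        Complex.exp (Complex.I * ((θ * φ x : ℝ) : ℂ)) *
          Complex.exp (Complex.I * ((θ * grad nx φ x e : ℝ) : ℂ)) := by
      rw [← Complex.exp_add]
      congr 1
      unfold grad
      push_cast
      ring
    rw [e3]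
    ring

theorem P1f_holds : P1f := by
  intro X nx S hS F F' ε hε n
  induction n with
  | zero => exact hε
  | succ n ih =>
    intro x hx
    have e1 : ∀ F : X → ℂ, EV nx F (n + 1) x = (1 / 4) * ∑ e, EV nx F n (nx x e) := fun F => rfl
    rw [e1, e1, ← mul_sub, ← Finset.sum_sub_distrib]
    refine (norm_quarter_sum_le _ (fun _ => ε) fun e => ih _ (hS x hx e)).trans (le_of_eq ?_)
    simp

end Pool.Agent.R152.PP
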