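import Pool.Agent.R196.PP.Pieces

/-! P4a, P4b of project PP (MP_68f671_pr): Poisson equation and maximum principle on a periodic
plane environment; P3a, P3b, P3d are taken as hypotheses. -/

namespace Pool.Agent.R152.PP

open Pool.Agent.R196.PP Filter Topology
open scoped BigOperators

section
variable {M N Lm : ℕ} {A : Set Pt}

lemma Per_int {α : Type*} {f : Pt → α} (h : Per M N f) (i j : ℤ) (v : Pt) :
    f (v.1 + i * M, v.2 + j * N) = f v := by
  have h1 : ∀ (i : ℤ) (v : Pt), f (v.1 + i * M, v.2) = f v := by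
    intro i
    induction i using Int.induction_on with
    | zero => intro v; simp
    | succ i ih =>
      intro v
      have := h.1 (v.1 + i * M, v.2)
      rw [ih v] at this
      rw [← this]
      congr 2
      push_cast; ring
    | pred i ih =>
      intro v
      have := h.1 (v.1 + (-(i : ℤ) - 1) * M, v.2)
      rw [← this, ← ih v]
      congr 2
      push_cast; ring
  have h2 : ∀ (j : ℤ) (v : Pt), f (v.1, v.2 + j * N) = f v := by
    intro j
    induction j using Int.induction_on with
    | zero => intro v; simp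
    | succ i ih =>
      intro v
      have := h.2 (v.1, v.2 + i * N)
      rw [ih v] at this
      rw [← this]
      congr 2
      push_cast; ring
    | pred i ih =>
      intro v
      have := h.2 (v.1, v.2 + (-(i : ℤ) - 1) * N)
      rw [← this, ← ih v]
      congr 2
      push_cast; ring
  rw [h2 j (v.1 + i * M, v.2)] at *
  exact h1 i v

/-- reduction to the fundamental cell -/
def red (M N : ℕ) (v : Pt) : Pt := (v.1 % M, v.2 % N)

lemma red_spec (M N : ℕ) (v : Pt) : ∃ i j : ℤ, v = ((red M N v).1 + i * M, (red M N v).2 + j * N) := by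
  refine ⟨v.1 / M, v.2 / N, ?_⟩
  apply Prod.ext
  · show v.1 = v.1 % M + v.1 / M * M
    have := Int.emod_add_mul_ediv v.1 M
    linarith
  · show v.2 = v.2 % N + v.2 / N * N
    have := Int.emod_add_mul_ediv v.2 N
    linarith

lemma Per_red {α : Type*} {f : Pt → α} (h : Per M N f) (v : Pt) : f (red M N v) = f v := by
  obtain ⟨i, j, hij⟩ := red_spec M N v
  conv_rhs => rw [hij]
  exact (Per_int h i j _).symm

lemma red_per (M N : ℕ) : Per M N (red M N) := by
  constructor
  · intro v
    simp [red]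
  · intro v
    simp [red]

lemma red_mem_cell (hM : 0 < M) (hN : 0 < N) (v : Pt) : red M N v ∈ cell M N := by
  unfold cell red
  rw [Finset.mem_product, Finset.mem_Ico, Finset.mem_Ico]
  have hM' : (0 : ℤ) < M := by exact_mod_cast hM
  have hN' : (0 : ℤ) < N := by exact_mod_cast hN
  exact ⟨⟨Int.emod_nonneg _ hM'.ne', Int.emod_lt_of_pos _ hM'⟩,
    ⟨Int.emod_nonneg _ hN'.ne', Int.emod_lt_of_pos _ hN'⟩⟩

lemma red_of_mem_cell {v : Pt} (h : v ∈ cell M N) : red M N v = v := by
  unfold cell at h
  rw [Finset.mem_product, Finset.mem_Ico, Finset.mem_Ico] at h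
  unfold red
  apply Prod.ext
  · exact Int.emod_eq_of_lt h.1.1 h.1.2
  · exact Int.emod_eq_of_lt h.2.1 h.2.2

open Classical in
/-- the points of `A` in the cell -/
noncomputable def SS (M N : ℕ) (A : Set Pt) : Finset Pt := (cell M N).filter (· ∈ A)

lemma mem_SS {v : Pt} : v ∈ SS M N A ↔ v ∈ cell M N ∧ v ∈ A := by
  classical
  unfold SS; rw [Finset.mem_filter]

lemma csum_eq (f : Pt → ℝ) : csum M N A f = ∑ v ∈ SS M N A, f v := rfl

lemma perA (hA : GEnv M N Lm A) : Per M N (fun v => v ∈ A) :=
  ⟨fun v => propext (hA.perM v), fun v => propext (hA.perN v)⟩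

lemma posM (hA : GEnv M N Lm A) : 0 < M := hA.oddM.pos
lemma posN (hA : GEnv M N Lm A) : 0 < N := hA.oddN.pos

lemma red_mem_SS (hA : GEnv M N Lm A) {v : Pt} (hv : v ∈ A) : red M N v ∈ SS M N A := by
  rw [mem_SS]
  refine ⟨red_mem_cell (posM hA) (posN hA) v, ?_⟩
  have := Per_red (perA hA) v
  rw [this]; exact hv

lemma card_SS (M N : ℕ) (A : Set Pt) : (SS M N A).card ≤ M * N := by
  classical
  refine (Finset.card_filter_le _ _).trans ?_
  unfold cell
  rw [Finset.card_product]
  simp

lemma A_nonempty (h3a : P3a) (hA : GEnv M N Lm A) : ∃ v, v ∈ A := ⟨_, (h3a M N Lm A hA).1 0 0⟩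

lemma nb_trans (h3a : P3a) (hA : GEnv M N Lm A) (v : Pt) (e : Fin 4) (i j : ℤ) :
    nb A (v.1 + i * M, v.2 + j * N) e = ((nb A v e).1 + i * M, (nb A v e).2 + j * N) :=
  (h3a M N Lm A hA).2.2.1 v e i j

/-- a periodic function composed with `nb` is periodic -/
lemma per_nb (h3a : P3a) (hA : GEnv M N Lm A) {α : Type*} {f : Pt → α} (h : Per M N f) (e : Fin 4) :
    Per M N (fun v => f (nb A v e)) := by
  constructor
  · intro v
    have := nb_trans h3a hA v e 1 0
    simp only [one_mul, zero_mul, add_zero] at this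
    show f (nb A (v.1 + M, v.2) e) = f (nb A v e)
    rw [this]
    exact h.1 _
  · intro v
    have := nb_trans h3a hA v e 0 1
    simp only [one_mul, zero_mul, add_zero] at this
    show f (nb A (v.1, v.2 + N) e) = f (nb A v e)
    rw [this]
    exact h.2 _

lemma iter_mem (h3a : P3a) (hA : GEnv M N Lm A) {v : Pt} (hv : v ∈ A) (n : ℕ) :
    (fun z => nb A z 0)^[n] v ∈ A := by
  cases n with
  | zero => exact hv
  | succ n =>
    rw [Function.iterate_succ_apply']
    exact (h3a M N Lm A hA).1 _ _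

/-- a periodic function has a maximum on `A` -/
lemma exists_max (h3a : P3a) (hA : GEnv M N Lm A) {u : Pt → ℝ} (hu : Per M N u) :
    ∃ a ∈ A, ∀ w ∈ A, u w ≤ u a := by
  obtain ⟨v, hv⟩ := A_nonempty h3a hA
  obtain ⟨a, ha, hmax⟩ := (SS M N A).exists_max_image u ⟨_, red_mem_SS hA hv⟩
  refine ⟨a, (mem_SS.1 ha).2, fun w hw => ?_⟩
  rw [← Per_red hu w]
  exact hmax _ (red_mem_SS hA hw)

end

theorem P4b_holds (h3a : P3a) (h3d : P3d) : P4b := by
  classical
  intro M N Lm A hA u F hu hharm hF
  obtain ⟨v0, hv0F, hv0A, hv0T⟩ := hF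
  obtain ⟨a, haA, hmax⟩ := exists_max h3a hA hu
  obtain ⟨n, i, j, _, hn, _⟩ := h3d M N Lm A hA a haA v0 hv0A
  have hex : ∃ n : ℕ, (fun z => nb A z 0)^[n] a ∈ F := ⟨n, by rw [hn]; exact hv0T i j⟩
  have key : ∀ m ≤ Nat.find hex, u ((fun z => nb A z 0)^[m] a) = u a := by
    intro m
    induction m with
    | zero => intro _; rfl
    | succ m ih =>
      intro hm
      have h1 := ih (by omega)
      have h2 : (fun z => nb A z 0)^[m] a ∉ F := Nat.find_min hex (by omega)
      set b := (fun z => nb A z 0)^[m] a with hb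
      have hbA : b ∈ A := iter_mem h3a hA haA m
      have h3 := hharm b hbA h2
      have h4 : ∀ e, grad (nb A) u b e ≤ 0 := by
        intro e
        unfold grad
        have := hmax _ ((h3a M N Lm A hA).1 b e)
        linarith
      have h5 : grad (nb A) u b 0 = 0 := by
        rw [Fin.sum_univ_four] at h3
        have := h4 0; have := h4 1; have := h4 2; have := h4 3
        linarith
      rw [Function.iterate_succ_apply']
      unfold grad at h5
      show u (nb A b 0) = u a
      linarith
  have hfF := Nat.find_spec hex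
  refine ⟨_, hfF, iter_mem h3a hA haA _, fun w hw => ?_⟩
  rw [key _ le_rfl]
  exact hmax w hw

section
variable {M N Lm : ℕ} {A : Set Pt}

lemma Per_PR (h3a : P3a) (hA : GEnv M N Lm A) {h : Pt → ℝ} (hp : Per M N h) :
    Per M N (PR (nb A) h) := by
  constructor
  · intro v
    unfold PR
    congr 1
    exact Finset.sum_congr rfl fun e _ => (per_nb h3a hA hp e).1 v
  · intro v
    unfold PR
    congr 1
    exact Finset.sum_congr rfl fun e _ => (per_nb h3a hA hp e).2 v

/-- the energy -/
noncomputable def En (M N : ℕ) (A : Set Pt) (h : Pt → ℝ) : ℝ :=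
  ∑ e, csum M N A (fun v => (h (nb A v e) - h v) ^ 2)

lemma energy (h3b : P3b) (hA : GEnv M N Lm A) {h : Pt → ℝ} (hp : Per M N h) :
    En M N A h = 8 * csum M N A (fun v => h v * (h v - PR (nb A) h v)) := by
  have hp2 : Per M N (fun v => h v ^ 2) := ⟨fun v => by simp only [hp.1 v], fun v => by simp only [hp.2 v]⟩
  have h1 : ∀ e, csum M N A (fun v => (h (nb A v e) - h v) ^ 2) =
      2 * csum M N A (fun v => h v ^ 2) - 2 * csum M N A (fun v => h v * h (nb A v e)) := by
    intro e
    have h2 := h3b M N Lm A hA _ hp2 e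
    simp only [csum_eq] at h2 ⊢
    have h3 : ∀ v, (h (nb A v e) - h v) ^ 2 = h (nb A v e) ^ 2 + h v ^ 2 - 2 * (h v * h (nb A v e)) :=
      fun v => by ring
    simp only [h3]
    rw [Finset.sum_sub_distrib, Finset.sum_add_distrib, h2, ← Finset.mul_sum]
    ring
  unfold En
  simp only [h1]
  rw [Fin.sum_univ_four]
  simp only [csum_eq]
  have h4 : ∑ v ∈ SS M N A, h v * (h v - PR (nb A) h v) = ∑ v ∈ SS M N A, h v ^ 2 -
      (1 / 4) * (∑ v ∈ SS M N A, h v * h (nb A v 0) + ∑ v ∈ SS M N A, h v * h (nb A v 1) +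
        ∑ v ∈ SS M N A, h v * h (nb A v 2) + ∑ v ∈ SS M N A, h v * h (nb A v 3)) := by
    rw [← Finset.sum_add_distrib, ← Finset.sum_add_distrib, ← Finset.sum_add_distrib,
      Finset.mul_sum, ← Finset.sum_sub_distrib]
    refine Finset.sum_congr rfl fun v _ => ?_
    unfold PR
    rw [Fin.sum_univ_four]
    ring
  rw [h4]
  ring

lemma osc (h3a : P3a) (h3d : P3d) (hA : GEnv M N Lm A) {h : Pt → ℝ} (hp : Per M N h) (v w : Pt)
    (hv : v ∈ A) (hw : w ∈ A) : (h v - h w) ^ 2 ≤ M * N * En M N A h := by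
  classical
  obtain ⟨n, i, j, hn, hit, hdist⟩ := h3d M N Lm A hA v hv w hw
  set z : ℕ → Pt := fun m => (fun z => nb A z 0)^[m] v with hz
  set g : Pt → ℝ := fun v => (h (nb A v 0) - h v) ^ 2 with hg
  have hzA : ∀ m, z m ∈ A := fun m => iter_mem h3a hA hv m
  have hgp : Per M N g := by
    have h1 := per_nb h3a hA hp 0
    constructor
    · intro v
      show (h (nb A (v.1 + M, v.2) 0) - h (v.1 + M, v.2)) ^ 2 = _
      have h2 := h1.1 v
      simp only at h2
      rw [h2, hp.1 v]
    · intro v
      show (h (nb A (v.1, v.2 + N) 0) - h (v.1, v.2 + N)) ^ 2 = _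
      have h2 := h1.2 v
      simp only at h2
      rw [h2, hp.2 v]
  have hhw : h w = h (z n) := by
    show h w = h ((fun z => nb A z 0)^[n] v)
    rw [hit]
    exact (Per_int hp i j w).symm
  have htel : h (z n) - h (z 0) = ∑ m ∈ Finset.range n, (h (z (m + 1)) - h (z m)) :=
    (Finset.sum_range_sub (fun m => h (z m)) n).symm
  have hzS : ∀ m, z (m + 1) = nb A (z m) 0 := fun m => by
    show (fun z => nb A z 0)^[m + 1] v = _
    rw [Function.iterate_succ_apply']
  have hcs : (∑ m ∈ Finset.range n, (h (z (m + 1)) - h (z m))) ^ 2 ≤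
      n * ∑ m ∈ Finset.range n, (h (z (m + 1)) - h (z m)) ^ 2 := by
    have := sq_sum_le_card_mul_sum_sq (s := Finset.range n) (f := fun m => h (z (m + 1)) - h (z m))
    rwa [Finset.card_range] at this
  have hsum : ∑ m ∈ Finset.range n, (h (z (m + 1)) - h (z m)) ^ 2 ≤ csum M N A g := by
    have h1 : ∑ m ∈ Finset.range n, (h (z (m + 1)) - h (z m)) ^ 2 =
        ∑ m ∈ Finset.range n, g (red M N (z m)) := by
      refine Finset.sum_congr rfl fun m _ => ?_
      rw [Per_red hgp, hzS]
    rw [h1, csum_eq]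
    have hinj : Set.InjOn (fun m => red M N (z m)) (Finset.range n : Set ℕ) := by
      have aux : ∀ m m' : ℕ, m < m' → m' < n → red M N (z m) ≠ red M N (z m') := by
        intro m m' hmm hm' heq
        obtain ⟨i1, j1, h1⟩ := red_spec M N (z m)
        obtain ⟨i2, j2, h2⟩ := red_spec M N (z m')
        apply hdist m m' hmm hm' (i1 - i2) (j1 - j2)
        show z m = ((z m').1 + (i1 - i2) * M, (z m').2 + (j1 - j2) * N)
        have e1 : (z m).1 = (red M N (z m)).1 + i1 * M := congrArg Prod.fst h1
        have e2 : (z m).2 = (red M N (z m)).2 + j1 * N := congrArg Prod.snd h1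
        have e3 : (z m').1 = (red M N (z m')).1 + i2 * M := congrArg Prod.fst h2
        have e4 : (z m').2 = (red M N (z m')).2 + j2 * N := congrArg Prod.snd h2
        apply Prod.ext
        · show (z m).1 = (z m').1 + (i1 - i2) * M
          rw [e1, e3, heq]; ring
        · show (z m).2 = (z m').2 + (j1 - j2) * N
          rw [e2, e4, heq]; ring
      intro m hm m' hm' heq
      have hm1 := Finset.mem_range.1 (Finset.mem_coe.1 hm)
      have hm2 := Finset.mem_range.1 (Finset.mem_coe.1 hm')
      rcases lt_trichotomy m m' with h | h | h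
      · exact absurd heq (aux m m' h hm2)
      · exact h
      · exact absurd heq.symm (aux m' m h hm1)
    rw [← Finset.sum_image (f := g) hinj]
    refine Finset.sum_le_sum_of_subset_of_nonneg ?_ fun _ _ _ => sq_nonneg _
    intro x hx
    obtain ⟨m, _, rfl⟩ := Finset.mem_image.1 hx
    exact red_mem_SS hA (hzA m)
  have hEg : csum M N A g ≤ En M N A h := by
    unfold En
    have : csum M N A g = csum M N A (fun v => (h (nb A v 0) - h v) ^ 2) := rfl
    rw [this]
    refine Finset.single_le_sum (f := fun e => csum M N A (fun v => (h (nb A v e) - h v) ^ 2))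
      (fun e _ => Finset.sum_nonneg fun _ _ => sq_nonneg _) (Finset.mem_univ 0)
  have hcs0 : 0 ≤ csum M N A g := Finset.sum_nonneg fun _ _ => sq_nonneg _
  have e0 : (h v - h w) ^ 2 = (h (z n) - h (z 0)) ^ 2 := by
    rw [hhw]
    have : z 0 = v := rfl
    rw [this]; ring
  rw [e0, htel]
  have hnMN : (n : ℝ) ≤ M * N := by exact_mod_cast hn.le
  calc _ ≤ n * ∑ m ∈ Finset.range n, (h (z (m + 1)) - h (z m)) ^ 2 := hcs
    _ ≤ n * csum M N A g := mul_le_mul_of_nonneg_left hsum (Nat.cast_nonneg n)
    _ ≤ M * N * csum M N A g := mul_le_mul_of_nonneg_right hnMN hcs0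
    _ ≤ M * N * En M N A h := mul_le_mul_of_nonneg_left hEg (by positivity)

/-- the periodic extension of a function on the cell -/
noncomputable def ext (M N : ℕ) (A : Set Pt) (f : SS M N A → ℝ) (v : Pt) : ℝ :=
  open Classical in if h : red M N v ∈ SS M N A then f ⟨red M N v, h⟩ else 0

lemma ext_per (f : SS M N A → ℝ) : Per M N (ext M N A f) := by
  constructor
  · intro v
    unfold ext
    simp only [(red_per M N).1 v]
  · intro v
    unfold ext
    simp only [(red_per M N).2 v]

lemma ext_coe (f : SS M N A → ℝ) (x : SS M N A) : ext M N A f x.1 = f x := by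
  have h1 : red M N x.1 = x.1 := red_of_mem_cell (mem_SS.1 x.2).1
  unfold ext
  rw [dif_pos (by rw [h1]; exact x.2)]
  congr 1
  exact Subtype.ext h1

/-- the operator `I - P` on the cell -/
noncomputable def LL (M N : ℕ) (A : Set Pt) : (SS M N A → ℝ) →ₗ[ℝ] (SS M N A → ℝ) where
  toFun := fun f x => ext M N A f x.1 - PR (nb A) (ext M N A f) x.1
  map_add' := by
    intro f g
    have h1 : ∀ v, ext M N A (f + g) v = ext M N A f v + ext M N A g v := by
      intro v
      unfold ext
      split_ifs <;> simp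
    funext x
    simp only [Pi.add_apply, h1, PR, Fin.sum_univ_four]
    ring
  map_smul' := by
    intro c f
    have h1 : ∀ v, ext M N A (c • f) v = c * ext M N A f v := by
      intro v
      unfold ext
      split_ifs <;> simp
    funext x
    simp only [Pi.smul_apply, h1, PR, Fin.sum_univ_four, RingHom.id_apply, smul_eq_mul]
    ring

/-- the sum functional -/
noncomputable def sumF (M N : ℕ) (A : Set Pt) : (SS M N A → ℝ) →ₗ[ℝ] ℝ where
  toFun := fun f => ∑ x, f x
  map_add' := fun f g => by simp [Finset.sum_add_distrib]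
  map_smul' := fun c f => by simp [Finset.mul_sum]

lemma csum_ext (f : Pt → ℝ) : csum M N A f = ∑ x : SS M N A, f x.1 := by
  rw [csum_eq]
  exact (Finset.sum_coe_sort (SS M N A) f).symm

lemma range_le (h3b : P3b) (hA : GEnv M N Lm A) :
    LinearMap.range (LL M N A) ≤ LinearMap.ker (sumF M N A) := by
  rintro _ ⟨f, rfl⟩
  rw [LinearMap.mem_ker]
  show ∑ x : SS M N A, (ext M N A f x.1 - PR (nb A) (ext M N A f) x.1) = 0
  rw [← csum_ext (fun v => ext M N A f v - PR (nb A) (ext M N A f) v)]
  have h1 := fun e => h3b M N Lm A hA (ext M N A f) (ext_per f) e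
  simp only [csum_eq] at h1 ⊢
  rw [Finset.sum_sub_distrib]
  have h2 : ∑ v ∈ SS M N A, PR (nb A) (ext M N A f) v = (1 / 4) *
      (∑ v ∈ SS M N A, ext M N A f (nb A v 0) + ∑ v ∈ SS M N A, ext M N A f (nb A v 1) +
        ∑ v ∈ SS M N A, ext M N A f (nb A v 2) + ∑ v ∈ SS M N A, ext M N A f (nb A v 3)) := by
    rw [← Finset.sum_add_distrib, ← Finset.sum_add_distrib, ← Finset.sum_add_distrib,
      Finset.mul_sum]
    refine Finset.sum_congr rfl fun v _ => ?_
    unfold PR
    rw [Fin.sum_univ_four]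
  rw [h2, h1, h1, h1, h1]
  ring

lemma ker_le (h3a : P3a) (h3b : P3b) (h3d : P3d) (hA : GEnv M N Lm A) :
    LinearMap.ker (LL M N A) ≤ Submodule.span ℝ {fun _ => (1 : ℝ)} := by
  intro f hf
  rw [LinearMap.mem_ker] at hf
  have h0 : ∀ x : SS M N A, ext M N A f x.1 - PR (nb A) (ext M N A f) x.1 = 0 :=
    fun x => congrFun hf x
  have hE : En M N A (ext M N A f) = 0 := by
    rw [energy h3b hA (ext_per f), csum_ext]
    simp only [h0, mul_zero, Finset.sum_const_zero]
  obtain ⟨v0, hv0⟩ := A_nonempty h3a hA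
  rw [Submodule.mem_span_singleton]
  refine ⟨ext M N A f v0, ?_⟩
  funext x
  have h1 := osc h3a h3d hA (ext_per f) x.1 v0 (mem_SS.1 x.2).2 hv0
  rw [hE, mul_zero] at h1
  have h2 : ext M N A f x.1 - ext M N A f v0 = 0 := by
    have := sq_nonneg (ext M N A f x.1 - ext M N A f v0)
    exact pow_eq_zero_iff (two_ne_zero) |>.1 (le_antisymm h1 this)
  show ext M N A f v0 • (1 : ℝ) = f x
  rw [smul_eq_mul, mul_one, ← ext_coe f x]
  linarith

lemma range_eq (h3a : P3a) (h3b : P3b) (h3d : P3d) (hA : GEnv M N Lm A) :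
    LinearMap.range (LL M N A) = LinearMap.ker (sumF M N A) := by
  obtain ⟨v0, hv0⟩ := A_nonempty h3a hA
  apply Submodule.eq_of_le_of_finrank_le (range_le h3b hA)
  have h1 := LinearMap.finrank_range_add_finrank_ker (LL M N A)
  have h2 := LinearMap.finrank_range_add_finrank_ker (sumF M N A)
  have h3 : Module.finrank ℝ (LinearMap.ker (LL M N A)) ≤ 1 :=
    (Submodule.finrank_mono (ker_le h3a h3b h3d hA)).trans
      ((finrank_span_le_card ({fun _ => (1 : ℝ)} : Set (SS M N A → ℝ))).trans (by simp))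
  have h4 : 1 ≤ Module.finrank ℝ (LinearMap.range (sumF M N A)) := by
    rw [Nat.one_le_iff_ne_zero, Ne, Submodule.finrank_eq_zero]
    intro hbot
    have h5 : sumF M N A (fun _ => 1) ∈ LinearMap.range (sumF M N A) := ⟨_, rfl⟩
    rw [hbot, Submodule.mem_bot] at h5
    have h6 : sumF M N A (fun _ => 1) = (Finset.univ : Finset (SS M N A)).card := by
      show ∑ _x : SS M N A, (1 : ℝ) = _
      simp
    rw [h6] at h5
    have h7 : (Finset.univ : Finset (SS M N A)).card ≠ 0 := by
      have hne : (⟨red M N v0, red_mem_SS hA hv0⟩ : SS M N A) ∈ Finset.univ := Finset.mem_univ _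
      exact Finset.card_ne_zero_of_mem hne
    exact h7 (by exact_mod_cast h5)
  omega

end

theorem P4a_holds (h3a : P3a) (h3b : P3b) (h3d : P3d) : P4a := by
  classical
  intro M N Lm A hA V C hV hsum hC
  obtain ⟨v0, hv0⟩ := A_nonempty h3a hA
  have hC0 : 0 ≤ C := (abs_nonneg _).trans (hC v0 hv0)
  -- solve the equation on the cell
  have hVker : (fun x : SS M N A => V x.1) ∈ LinearMap.ker (sumF M N A) := by
    rw [LinearMap.mem_ker]
    show ∑ x : SS M N A, V x.1 = 0
    rw [← csum_ext]; exact hsum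
  rw [← range_eq h3a h3b h3d hA] at hVker
  obtain ⟨f, hf⟩ := hVker
  set k : Pt → ℝ := ext M N A f with hk
  have hkp : Per M N k := ext_per f
  set h : Pt → ℝ := fun v => k v - k v0 with hh
  have hhp : Per M N h := ⟨fun v => by simp only [hh, hkp.1 v], fun v => by simp only [hh, hkp.2 v]⟩
  have heq : ∀ v ∈ A, h v - PR (nb A) h v = V v := by
    intro v hv
    have h1 : ∀ v, h v - PR (nb A) h v = k v - PR (nb A) k v := by
      intro v
      simp only [hh, PR, Fin.sum_univ_four]
      ring
    rw [h1]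
    have h2 : k (red M N v) - PR (nb A) k (red M N v) = V (red M N v) := by
      have := congrFun hf ⟨red M N v, red_mem_SS hA hv⟩
      exact this
    rw [Per_red hkp, Per_red (Per_PR h3a hA hkp), Per_red hV] at h2
    exact h2
  refine ⟨h, hhp, heq, ?_⟩
  -- the bound
  obtain ⟨a, haA, ha⟩ := exists_max h3a hA (u := fun v => |h v|)
    ⟨fun v => by simp only [hhp.1 v], fun v => by simp only [hhp.2 v]⟩
  set O := |h a| with hO
  have hO0 : 0 ≤ O := abs_nonneg _
  have hEn : En M N A h ≤ 8 * (M * N * (O * C)) := by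
    rw [energy h3b hA hhp, csum_eq]
    refine mul_le_mul_of_nonneg_left ?_ (by norm_num)
    calc ∑ v ∈ SS M N A, h v * (h v - PR (nb A) h v) ≤ ∑ _v ∈ SS M N A, O * C := by
          refine Finset.sum_le_sum fun v hv => ?_
          have hvA := (mem_SS.1 hv).2
          rw [heq v hvA]
          calc h v * V v ≤ |h v * V v| := le_abs_self _
            _ = |h v| * |V v| := abs_mul _ _
            _ ≤ O * C := mul_le_mul (ha v hvA) (hC v hvA) (abs_nonneg _) hO0
      _ = (SS M N A).card * (O * C) := by rw [Finset.sum_const, nsmul_eq_mul]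
      _ ≤ M * N * (O * C) := by
          refine mul_le_mul_of_nonneg_right ?_ (mul_nonneg hO0 hC0)
          exact_mod_cast card_SS M N A
  have hosc := osc h3a h3d hA hhp a v0 haA hv0
  have hv00 : h v0 = 0 := by simp [hh]
  rw [hv00, sub_zero, ← sq_abs, ← hO] at hosc
  have hMN : (0 : ℝ) ≤ M * N := by positivity
  have h1 : O ^ 2 ≤ 8 * C * (M * N) ^ 2 * O := by
    calc O ^ 2 ≤ M * N * En M N A h := hosc
      _ ≤ M * N * (8 * (M * N * (O * C))) := mul_le_mul_of_nonneg_left hEn hMN
      _ = _ := by ring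
  have h2 : O ≤ 8 * C * (M * N) ^ 2 := by
    by_contra hcon
    push Not at hcon
    have h3 : 0 ≤ 8 * C * ((M : ℝ) * N) ^ 2 := by positivity
    have h4 : 0 < O := lt_of_le_of_lt h3 hcon
    nlinarith
  intro v hv
  exact (ha v hv).trans h2

end Pool.Agent.R152.PP
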